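import Pool.Agent.H46.Sq.B

theorem Pool.Agent.Results.MP_42cda2_nt.Yes.result (a b c : ℕ) (ha : 0 < a) (hb : 0 < b)
    (hc : 0 < c) (hg : Squarefree (Nat.gcd a (Nat.gcd b c)))
    (hP : ∀ n : ℕ, 0 < n → ∃ x y z w k : ℕ,
      n ^ 2 = x ^ 2 + y ^ 2 + z ^ 2 + w ^ 2 ∧ a * x + b * y + c * z = 4 ^ k) :
    ({a, b, c} : Multiset ℕ) = {1, 2, 3} := by
  refine Pool.Agent.H46.Sq.main hP ha hb hc fun h => ?_
  have h4 : 2 * 2 ∣ Nat.gcd a (Nat.gcd b c) :=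
    Nat.dvd_gcd (by omega) (Nat.dvd_gcd (by omega) (by omega))
  have := hg 2 h4
  simp at this
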